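import Pool.Agent.ANP.StmtsD
import Pool.Agent.Helper72_ANP.Sep

/-!
# LAB: the label invariant
-/

set_option autoImplicit false
set_option linter.unusedSectionVars false

namespace Pool.Agent.ANP.H49

open Pool.Agent.ANP.H72 (mem_comp)

variable {X : Type} [Fintype X] [DecidableEq X] {Γ : Geo X} {d : ℕ}

/-! ### Components -/

theorem comp_self {S : Finset X} {t : ℕ} {x : X} (hx : x ∈ S) : x ∈ Γ.comp S t x :=
  mem_comp.2 ⟨Relation.ReflTransGen.refl, hx⟩

theorem comp_sub {S : Finset X} {t : ℕ} {x : X} : Γ.comp S t x ⊆ S :=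
  fun _ hy => (mem_comp.1 hy).2

theorem comp_trans {S : Finset X} {t : ℕ} {x y z : X} (h1 : y ∈ Γ.comp S t x)
    (h2 : z ∈ Γ.comp S t y) : z ∈ Γ.comp S t x :=
  mem_comp.2 ⟨(mem_comp.1 h1).1.trans (mem_comp.1 h2).1, (mem_comp.1 h2).2⟩

theorem comp_symm (hG : GeoOk Γ d) {S : Finset X} {t : ℕ} {x y : X} (hx : x ∈ S)
    (h : y ∈ Γ.comp S t x) : x ∈ Γ.comp S t y := by
  refine mem_comp.2 ⟨?_, hx⟩
  have h1 := (mem_comp.1 h).1
  induction h1 with
  | refl => exact Relation.ReflTransGen.refl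
  | @tail b c hab hbc ih =>
    have h2 : Relation.ReflTransGen (fun u v => u ∈ S ∧ v ∈ S ∧ Γ.D u v ≤ t) c b :=
      Relation.ReflTransGen.single ⟨hbc.2.1, hbc.1, by rw [hG.comm]; exact hbc.2.2⟩
    exact h2.trans (ih (mem_comp.2 ⟨hab, hbc.1⟩))

theorem comp_link {S : Finset X} {t : ℕ} {x y z : X} (h : y ∈ Γ.comp S t x) (hz : z ∈ S)
    (hD : Γ.D y z ≤ t) : z ∈ Γ.comp S t x :=
  mem_comp.2 ⟨(mem_comp.1 h).1.tail ⟨(mem_comp.1 h).2, hz, hD⟩, hz⟩

/-! ### Memberships -/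

theorem mem_nbh {S : Finset X} {t : ℕ} {x : X} : x ∈ Γ.nbh S t ↔ ∃ y ∈ S, Γ.D x y ≤ t := by
  simp only [Geo.nbh, Finset.mem_filter, Finset.mem_univ, true_and]

theorem mem_blk {n : ℕ} {B x : X} : x ∈ Γ.blk n B ↔ Γ.bl n x = B := by
  simp only [Geo.blk, Finset.mem_filter, Finset.mem_univ, true_and]

theorem mem_enl {n : ℕ} {𝓑 : Finset X} {k : ℕ} {x : X} :
    x ∈ Γ.enl n 𝓑 k ↔ ∃ y, Γ.bl n y ∈ 𝓑 ∧ Γ.D x y ≤ k * Γ.L n := by
  simp only [Geo.enl, Finset.mem_filter, Finset.mem_univ, true_and]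

theorem mem_near {o : X} {n : ℕ} {B : X} : B ∈ Γ.near o n ↔
    Γ.bl n B = B ∧ ∃ y, Γ.bl n y = B ∧ Γ.D o y ≤ 3 * Γ.ρ (n + 1) + 2 * Γ.L n := by
  simp only [Geo.near, Finset.mem_filter, Finset.mem_univ, true_and]

theorem mem_many {n : ℕ} {L : Lb X} {B : X} : B ∈ L.many Γ n ↔
    Γ.bl (n + 1) B = B ∧ Γ.J < (Γ.sub n (L.bad n) B).card := by
  simp only [Lb.many, Finset.mem_filter, Finset.mem_univ, true_and]

theorem enl_mono {n : ℕ} {𝓑 𝓑' : Finset X} {k k' : ℕ} (h : 𝓑 ⊆ 𝓑') (hk : k ≤ k') {x : X}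
    (hx : x ∈ Γ.enl n 𝓑 k) : x ∈ Γ.enl n 𝓑' k' := by
  obtain ⟨y, hy, hD⟩ := mem_enl.1 hx
  exact mem_enl.2 ⟨y, h hy, hD.trans (Nat.mul_le_mul_right _ hk)⟩

theorem enl_union {n : ℕ} {𝓑 𝓑' : Finset X} {k : ℕ} {x : X} (hx : x ∈ Γ.enl n (𝓑 ∪ 𝓑') k) :
    x ∈ Γ.enl n 𝓑 k ∨ x ∈ Γ.enl n 𝓑' k := by
  obtain ⟨y, hy, hD⟩ := mem_enl.1 hx
  rcases Finset.mem_union.1 hy with h | h
  · exact Or.inl (mem_enl.2 ⟨y, h, hD⟩)
  · exact Or.inr (mem_enl.2 ⟨y, h, hD⟩)

/-- the centre of a bad block near a site of `op` -/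
theorem cen (hG : GeoOk Γ d) {m : ℕ} {old op : Finset X} (hop : op ⊆ Γ.enl m old 2) {z : X}
    (hz : z ∈ op) : ∃ b ∈ old, Γ.D z b ≤ 3 * Γ.L m := by
  obtain ⟨w, hw, hD⟩ := mem_enl.1 (hop hz)
  refine ⟨Γ.bl m w, hw, ?_⟩
  have h1 := hG.tri z w (Γ.bl m w)
  have h2 := hG.diam m w (Γ.bl m w) (hG.idem m w).symm
  omega

/-- a site within `3 ρ (m + 1)` of `op` is near a bad block -/
theorem near_of_op (hG : GeoOk Γ d) {m : ℕ} {old op : Finset X} (hop : op ⊆ Γ.enl m old 2)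
    (hrep : ∀ B ∈ old, Γ.bl m B = B) {o z : X} (hz : z ∈ op)
    (hD : Γ.D o z ≤ 3 * Γ.ρ (m + 1)) : ∃ B ∈ old, B ∈ Γ.near o m := by
  obtain ⟨w, hw, hD2⟩ := mem_enl.1 (hop hz)
  refine ⟨Γ.bl m w, hw, mem_near.2 ⟨hrep _ hw, w, rfl, ?_⟩⟩
  have h1 := hG.tri o z w
  omega

theorem near_of_enl {n : ℕ} {𝓑 : Finset X} (hrep : ∀ B ∈ 𝓑, Γ.bl n B = B) {o : X}
    (h : o ∈ Γ.enl n 𝓑 1) : ∃ B ∈ 𝓑, B ∈ Γ.near o n := by
  obtain ⟨w, hw, hD⟩ := mem_enl.1 h
  refine ⟨Γ.bl n w, hw, mem_near.2 ⟨hrep _ hw, w, rfl, ?_⟩⟩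
  omega

theorem bl_sub (hG : GeoOk Γ d) {m : ℕ} {𝓑 : Finset X} {B : X}
    (hB : Γ.bl (m + 1) B ≠ B) : (Γ.sub m 𝓑 B).card = 0 := by
  rw [Finset.card_eq_zero, Finset.eq_empty_iff_forall_notMem]
  intro b hb
  have h1 : Γ.bl (m + 1) b = B := (Finset.mem_filter.1 hb).2
  apply hB
  rw [← h1, hG.idem]

/-! ### The invariant -/

/-- the ledger of the releases of super-stage `m + 1` -/
structure Led (Γ : Geo X) (d : ℕ) (Kn : ℕ → ℕ) (m : ℕ) (L : Lb X) (C : Finset X)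
    (G : X → Finset X) : Prop where
  sub : C ⊆ L.op
  dd : L.dd (m + 1) = C.biUnion G
  nb : ∀ c ∈ C, G c ⊆ Γ.nbh (L.cmp Γ (m + 1) c) (Γ.ρ (m + 1))
  card : ∀ c ∈ C, (G c).card ≤ Kn (m + 1) + 3 ^ d * Γ.J * (6 * Γ.L m + 1) ^ d
  np : ∀ c ∈ C, ∀ y ∈ L.cmp Γ (m + 1) c, y ∉ L.pend
  sep : ∀ c ∈ C, ∀ c' ∈ C, c' ∈ L.cmp Γ (m + 1) c → c = c'
  few : ∀ c ∈ C, ∀ z ∈ L.cmp Γ (m + 1) c, ∀ b ∈ L.bad m, Γ.D z b ≤ 3 * Γ.L m →
    (Γ.sub m (L.bad m) (Γ.bl (m + 1) b)).card ≤ Γ.J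
  all : ∀ y ∈ L.op, y ∉ L.pend → ∃ c ∈ C, y ∈ L.cmp Γ (m + 1) c

/-- the label invariant -/
structure LI (Γ : Geo X) (d : ℕ) (o : X) (Kn Dn : ℕ → ℕ) (n : ℕ) (L : Lb X) : Prop where
  disj : Disjoint L.run L.pend
  dead : ∀ x, x ∉ L.run → x ∉ L.pend → ∃ j ≤ n, x ∈ L.dd j
  rep : ∀ j, ∀ B ∈ L.bad j, Γ.bl j B = B
  frz : Disjoint L.run (Γ.enl n (L.bad n) 1)
  pen : n = 0 → L.op = ∅
  npe : ∀ x ∈ L.pend, x ∉ L.op → x ∈ Γ.enl n (L.bad n) 1
  orig : o ∉ L.run → ∃ j ≤ n, ∃ B ∈ L.bad j, B ∈ Γ.near o j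
  opn : ∀ m, n = m + 1 → L.op ⊆ Γ.enl m (L.bad m) 2
  opr : ∀ x ∈ L.op, x ∉ L.run
  bz : ∀ j, n < j → L.bad j = ∅
  dz : ∀ j, n < j → L.dd j = ∅
  d0 : n = 0 → L.dd 0 = ∅
  sub : ∀ m, n = m + 1 → ∀ B, B ∉ L.bad n → (Γ.sub m (L.bad m) B).card ≤ Γ.J
  den : ∀ j, j < n → ∀ B, (L.dd j ∩ Γ.blk j B).card ≤ Dn j
  led : ∀ m, n = m + 1 → ∃ C G, Led Γ d Kn m L C G

/-- the density -/
theorem led_dens (hG : GeoOk Γ d) (hS : Scl Γ d) {Kn : ℕ → ℕ} {m : ℕ}
    {L : Lb X} {C : Finset X} {G : X → Finset X} (h : Led Γ d Kn m L C G)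
    (hop : L.op ⊆ Γ.enl m (L.bad m) 2) (B : X) :
    (L.dd (m + 1) ∩ Γ.blk (m + 1) B).card ≤
      3 ^ d * Γ.J * (Kn (m + 1) + 3 ^ d * Γ.J * (6 * Γ.L m + 1) ^ d) := by
  classical
  rcases Finset.eq_empty_or_nonempty (Γ.blk (m + 1) B) with h0 | ⟨x₀, hx₀⟩
  · rw [h0, Finset.inter_empty, Finset.card_empty]
    exact Nat.zero_le _
  have hx₀ := mem_blk.1 hx₀
  have hrho := hS.rho m
  have hbig := hS.big m
  have hJ1 := hS.J1
  have h3d : 1 ≤ 3 ^ d * Γ.J := Nat.one_le_iff_ne_zero.2 (by positivity)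
  have hL : 12 * Γ.ρ (m + 1) + 5 * Γ.L m ≤ Γ.L (m + 1) := by
    have h1 : 1 * (5 * Γ.L m + 12 * Γ.ρ (m + 1)) ≤
        3 ^ d * Γ.J * (5 * Γ.L m + 12 * Γ.ρ (m + 1)) := Nat.mul_le_mul_right _ h3d
    omega
  set C' : Finset X := C.filter fun c => (G c ∩ Γ.blk (m + 1) B).Nonempty with hC'
  set W : Finset X := ((((Finset.univ.filter fun y =>
    ∃ z, Γ.bl (m + 1) z = Γ.bl (m + 1) x₀ ∧ Γ.D z y ≤ Γ.L (m + 1))).image (Γ.bl (m + 1))).filter
    fun B' => (Γ.sub m (L.bad m) B').card ≤ Γ.J).biUnion fun B' => Γ.sub m (L.bad m) B' with hW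
  have hWc : W.card ≤ 3 ^ d * Γ.J := by
    rw [hW]
    refine (Finset.card_biUnion_le_card_mul _ _ Γ.J ?_).trans ?_
    · intro B' hB'
      exact (Finset.mem_filter.1 hB').2
    · exact Nat.mul_le_mul_right _ ((Finset.card_filter_le _ _).trans (hG.meetb (m + 1) x₀))
  have hf : ∀ c, ∃ z b, c ∈ C' → z ∈ L.cmp Γ (m + 1) c ∧ b ∈ W ∧ Γ.D z b ≤ 3 * Γ.L m := by
    intro c
    by_cases hc : c ∈ C'
    · obtain ⟨hc1, y, hy⟩ := Finset.mem_filter.1 hc
      obtain ⟨hy1, hy2⟩ := Finset.mem_inter.1 hy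
      obtain ⟨z, hz, hyz⟩ := mem_nbh.1 (h.nb c hc1 hy1)
      have hzop : z ∈ L.op := comp_sub hz
      obtain ⟨b, hb, hzb⟩ := cen hG hop hzop
      refine ⟨z, b, fun _ => ⟨hz, ?_, hzb⟩⟩
      rw [hW, Finset.mem_biUnion]
      refine ⟨Γ.bl (m + 1) b, ?_, ?_⟩
      · rw [Finset.mem_filter, Finset.mem_image]
        refine ⟨⟨b, ?_, rfl⟩, h.few c hc1 z hz b hb hzb⟩
        rw [Finset.mem_filter]
        refine ⟨Finset.mem_univ _, y, (mem_blk.1 hy2).trans hx₀.symm, ?_⟩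
        have h1 := hG.tri y z b
        omega
      · exact Finset.mem_filter.2 ⟨hb, rfl⟩
    · exact ⟨c, c, fun h1 => absurd h1 hc⟩
  choose fz fb hfz using hf
  have hC'c : C'.card ≤ W.card := by
    refine Finset.card_le_card_of_injOn fb (fun c hc => (hfz c hc).2.1) ?_
    intro c hc c' hc' hcc
    obtain ⟨h1, -, h2⟩ := hfz c hc
    obtain ⟨h1', -, h2'⟩ := hfz c' hc'
    have hcC : c ∈ C := (Finset.mem_filter.1 hc).1
    have hcC' : c' ∈ C := (Finset.mem_filter.1 hc').1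
    have h3 : Γ.D (fz c) (fz c') ≤ 10 * Γ.ρ (m + 1) := by
      have h4 := hG.tri (fz c) (fb c) (fz c')
      have h5 := hG.comm (fb c) (fz c')
      rw [hcc] at h4 h5 h2
      omega
    have h4 : fz c' ∈ L.cmp Γ (m + 1) c := comp_link h1 (comp_sub h1') h3
    have h5 : c' ∈ L.cmp Γ (m + 1) (fz c') := comp_symm hG (h.sub hcC') h1'
    exact h.sep c hcC c' hcC' (comp_trans h4 h5)
  have h1 : L.dd (m + 1) ∩ Γ.blk (m + 1) B ⊆ C'.biUnion G := by
    intro y hy
    obtain ⟨hy1, hy2⟩ := Finset.mem_inter.1 hy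
    rw [h.dd, Finset.mem_biUnion] at hy1
    obtain ⟨c, hc, hyc⟩ := hy1
    exact Finset.mem_biUnion.2 ⟨c, Finset.mem_filter.2 ⟨hc, y, Finset.mem_inter.2 ⟨hyc, hy2⟩⟩, hyc⟩
  refine (Finset.card_le_card h1).trans ?_
  refine (Finset.card_biUnion_le_card_mul _ _
    (Kn (m + 1) + 3 ^ d * Γ.J * (6 * Γ.L m + 1) ^ d) ?_).trans ?_
  · intro c hc
    exact h.card c (Finset.mem_filter.1 hc).1
  · exact Nat.mul_le_mul_right _ (hC'c.trans hWc)

variable {o : X} {Kn Dn : ℕ → ℕ}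

/-- the facts -/
theorem li_fac (sep : SepStmt) (hG : GeoOk Γ d) (hS : Scl Γ d)
    (hD : ∀ n, 1 ≤ n → 3 ^ d * Γ.J * (Kn n + 3 ^ d * Γ.J * (6 * Γ.L (n - 1) + 1) ^ d) ≤ Dn n)
    {n : ℕ} {L : Lb X} (h : LI Γ d o Kn Dn n L) : LFac Γ d o Dn n L where
  disj := h.disj
  dead := h.dead
  dens := by
    intro j B
    rcases lt_trichotomy j n with hj | hj | hj
    · exact h.den j hj B
    · subst hj
      rcases j with _ | m
      · rw [h.d0 rfl, Finset.empty_inter, Finset.card_empty]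
        exact Nat.zero_le _
      · obtain ⟨C, G, hl⟩ := h.led m rfl
        exact (led_dens hG hS hl (h.opn m rfl) B).trans (hD (m + 1) (Nat.succ_pos m))
    · rw [h.dz j hj, Finset.empty_inter, Finset.card_empty]
      exact Nat.zero_le _
  rep := h.rep
  frz := h.frz
  pen := h.pen
  npe := h.npe
  rel := by
    intro x hx hel
    rcases n with _ | m
    · rw [h.pen rfl] at hx
      exact absurd hx (Finset.notMem_empty _)
    · have h1 := sep X Γ d hG hS m (L.bad m) (L.bad (m + 1)) L.op x hx (h.opn m rfl) (h.rep m)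
        (h.sub m rfl) hel.2
      have hbig := hS.big m
      have hJ1 := hS.J1
      have h3d : 1 ≤ 3 ^ d * Γ.J := Nat.one_le_iff_ne_zero.2 (by positivity)
      have hL : 8 * (12 * Γ.ρ (m + 1) + 5 * Γ.L m) ≤ Γ.L (m + 1) := by
        have h1 : 1 * (5 * Γ.L m + 12 * Γ.ρ (m + 1)) ≤
            3 ^ d * Γ.J * (5 * Γ.L m + 12 * Γ.ρ (m + 1)) := Nat.mul_le_mul_right _ h3d
        omega
      refine ⟨?_, h1.2, ?_⟩
      · intro y hy
        have h2 := h1.1 y hy
        omega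
      · intro y hy z hz hzc
        by_cases hzo : z ∈ L.op
        · by_contra hc
          push Not at hc
          exact hzc (comp_link hy hzo (by omega))
        · exact hel.2 y hy z (h.npe z hz hzo)
  orig := h.orig
  opn := h.opn

/-- rejected or declared blocks -/
theorem li_add {n : ℕ} {L : Lb X} (𝓑 : Finset X) (h : LI Γ d o Kn Dn n L)
    (hr : ∀ B ∈ 𝓑, Γ.bl n B = B) : LI Γ d o Kn Dn n (L.add Γ n 𝓑) := by
  have hb : ∀ j, j ≠ n → (L.add Γ n 𝓑).bad j = L.bad j := fun j hj =>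
    Function.update_of_ne hj _ _
  have hbn : (L.add Γ n 𝓑).bad n = L.bad n ∪ 𝓑 := Function.update_self _ _ _
  have hrun : (L.add Γ n 𝓑).run = L.run \ Γ.enl n 𝓑 1 := rfl
  have hpend : (L.add Γ n 𝓑).pend = L.pend ∪ (L.run ∩ Γ.enl n 𝓑 1) := rfl
  have hop : (L.add Γ n 𝓑).op = L.op := rfl
  have hdd : (L.add Γ n 𝓑).dd = L.dd := rfl
  have hrep : ∀ j, ∀ B ∈ (L.add Γ n 𝓑).bad j, Γ.bl j B = B := by
    intro j B hB
    by_cases hj : j = n
    · subst hj
      rw [hbn] at hB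
      rcases Finset.mem_union.1 hB with h1 | h1
      · exact h.rep _ B h1
      · exact hr B h1
    · rw [hb j hj] at hB
      exact h.rep j B hB
  refine ⟨?_, ?_, hrep, ?_, h.pen, ?_, ?_, ?_, ?_, ?_, h.dz, h.d0, ?_, h.den, ?_⟩
  · rw [hrun, hpend, Finset.disjoint_left]
    intro x hx hx2
    obtain ⟨h1, h2⟩ := Finset.mem_sdiff.1 hx
    rcases Finset.mem_union.1 hx2 with h3 | h3
    · exact Finset.disjoint_left.1 h.disj h1 h3
    · exact h2 (Finset.mem_inter.1 h3).2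
  · intro x hx1 hx2
    rw [hrun, Finset.mem_sdiff] at hx1
    rw [hpend, Finset.mem_union, Finset.mem_inter] at hx2
    rw [hdd]
    refine h.dead x (fun h1 => ?_) (fun h1 => hx2 (Or.inl h1))
    by_cases h2 : x ∈ Γ.enl n 𝓑 1
    · exact hx2 (Or.inr ⟨h1, h2⟩)
    · exact hx1 ⟨h1, h2⟩
  · rw [hrun, hbn, Finset.disjoint_left]
    intro x hx hx2
    obtain ⟨h1, h2⟩ := Finset.mem_sdiff.1 hx
    rcases enl_union hx2 with h3 | h3
    · exact Finset.disjoint_left.1 h.frz h1 h3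
    · exact h2 h3
  · intro x hx hx2
    rw [hop] at hx2
    rw [hbn]
    rw [hpend, Finset.mem_union, Finset.mem_inter] at hx
    rcases hx with h1 | h1
    · exact enl_mono Finset.subset_union_left le_rfl (h.npe x h1 hx2)
    · exact enl_mono Finset.subset_union_right le_rfl h1.2
  · intro ho
    by_cases h1 : o ∈ L.run
    · have h2 : o ∈ Γ.enl n 𝓑 1 := by
        by_contra h3
        exact ho (Finset.mem_sdiff.2 ⟨h1, h3⟩)
      obtain ⟨B, hB, hB2⟩ := near_of_enl hr h2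
      exact ⟨n, le_rfl, B, by rw [hbn]; exact Finset.mem_union_right _ hB, hB2⟩
    · obtain ⟨j, hj, B, hB, hB2⟩ := h.orig h1
      refine ⟨j, hj, B, ?_, hB2⟩
      by_cases hjn : j = n
      · subst hjn
        rw [hbn]
        exact Finset.mem_union_left _ hB
      · rw [hb j hjn]
        exact hB
  · intro m hm
    rw [hop, hb m (by omega)]
    exact h.opn m hm
  · intro x hx hx2
    exact h.opr x hx (Finset.mem_sdiff.1 hx2).1
  · intro j hj
    rw [hb j (by omega)]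
    exact h.bz j hj
  · intro m hm B hB
    rw [hb m (by omega)]
    refine h.sub m hm B (fun h1 => hB ?_)
    rw [hbn]
    exact Finset.mem_union_left _ h1
  · intro m hm
    obtain ⟨C, G, hl⟩ := h.led m hm
    refine ⟨C, G, hl.sub, hl.dd, hl.nb, hl.card, ?_, hl.sep, ?_, ?_⟩
    · intro c hc y hy hy2
      rw [hpend, Finset.mem_union, Finset.mem_inter] at hy2
      rcases hy2 with h1 | h1
      · exact hl.np c hc y hy h1
      · exact h.opr y (comp_sub hy) h1.1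
    · rw [hb m (by omega)]
      exact hl.few
    · intro y hy hy2
      refine hl.all y hy (fun h1 => hy2 ?_)
      rw [hpend]
      exact Finset.mem_union_left _ h1

/-- a release -/
theorem li_die (sep : SepStmt) (hG : GeoOk Γ d) (hS : Scl Γ d) {n : ℕ} {L : Lb X} (x : X)
    (K : Finset X) (h : LI Γ d o Kn Dn n L) (hx : x ∈ L.op) (hel : L.elig Γ n (L.cmp Γ n x))
    (hK : K ⊆ L.run ∩ Γ.nbh (L.cmp Γ n x) (Γ.ρ n)) (hKc : K.card ≤ Kn n) :
    LI Γ d o Kn Dn n (L.die n K (L.cmp Γ n x)) := by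
  classical
  obtain ⟨m, rfl⟩ : ∃ m, n = m + 1 := by
    rcases n with _ | m
    · rw [h.pen rfl] at hx
      exact absurd hx (Finset.notMem_empty _)
    · exact ⟨m, rfl⟩
  obtain ⟨Q, hQ⟩ : ∃ Q, Q = L.cmp Γ (m + 1) x := ⟨_, rfl⟩
  have hrun : (L.die (m + 1) K Q).run = L.run \ K := rfl
  have hpend : (L.die (m + 1) K Q).pend = L.pend \ Q := rfl
  have hop : (L.die (m + 1) K Q).op = L.op := rfl
  have hbad : (L.die (m + 1) K Q).bad = L.bad := rfl
  have hdn : (L.die (m + 1) K Q).dd (m + 1) = L.dd (m + 1) ∪ K ∪ Q := Function.update_self _ _ _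
  have hdj : ∀ j, j ≠ m + 1 → (L.die (m + 1) K Q).dd j = L.dd j := fun j hj =>
    Function.update_of_ne hj _ _
  have hsep := sep X Γ d hG hS m (L.bad m) (L.bad (m + 1)) L.op x hx (h.opn m rfl) (h.rep m)
    (h.sub m rfl) hel.2
  rw [← hQ] at hel hK ⊢
  refine ⟨?_, ?_, h.rep, ?_, h.pen, ?_, ?_, h.opn, ?_, h.bz, ?_, ?_, h.sub, ?_, ?_⟩
  · rw [hrun, hpend]
    exact Finset.disjoint_of_subset_left Finset.sdiff_subset
      (Finset.disjoint_of_subset_right Finset.sdiff_subset h.disj)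
  · intro y hy1 hy2
    rw [hrun, Finset.mem_sdiff] at hy1
    rw [hpend, Finset.mem_sdiff] at hy2
    by_cases h1 : y ∈ L.run
    · have h2 : y ∈ K := by
        by_contra h3
        exact hy1 ⟨h1, h3⟩
      exact ⟨m + 1, le_rfl, by rw [hdn]; simp [h2]⟩
    · by_cases h2 : y ∈ L.pend
      · have h3 : y ∈ Q := by
          by_contra h3
          exact hy2 ⟨h2, h3⟩
        exact ⟨m + 1, le_rfl, by rw [hdn]; simp [h3]⟩
      · obtain ⟨j, hj, hyj⟩ := h.dead y h1 h2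
        refine ⟨j, hj, ?_⟩
        by_cases hjm : j = m + 1
        · subst hjm
          rw [hdn]
          simp [hyj]
        · rw [hdj j hjm]
          exact hyj
  · rw [hrun, hbad]
    exact Finset.disjoint_of_subset_left Finset.sdiff_subset h.frz
  · intro y hy hy2
    exact h.npe y (Finset.sdiff_subset hy) hy2
  · intro ho
    by_cases h1 : o ∈ L.run
    · have h2 : o ∈ K := by
        by_contra h3
        exact ho (Finset.mem_sdiff.2 ⟨h1, h3⟩)
      obtain ⟨z, hz, hoz⟩ := mem_nbh.1 (Finset.mem_inter.1 (hK h2)).2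
      rw [hQ] at hz
      obtain ⟨B, hB, hB2⟩ := near_of_op hG (h.opn m rfl) (h.rep m) (comp_sub hz)
        (o := o) (by omega)
      exact ⟨m, Nat.le_succ m, B, hB, hB2⟩
    · exact h.orig h1
  · intro y hy hy2
    exact h.opr y hy (Finset.sdiff_subset hy2)
  · intro j hj
    rw [hdj j (by omega)]
    exact h.dz j hj
  · intro h0
    exact absurd h0 (Nat.succ_ne_zero m)
  · intro j hj B
    rw [hdj j (by omega)]
    exact h.den j hj B
  · intro m' hm'
    obtain rfl : m = m' := by omega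
    obtain ⟨C, G, hl⟩ := h.led m rfl
    have hxQ : x ∈ Q := by
      rw [hQ]
      exact comp_self hx
    have hxC : ∀ c ∈ C, x ∉ L.cmp Γ (m + 1) c := fun c hc hxc =>
      hl.np c hc x hxc (hel.1 hxQ)
    have hCx : ∀ c ∈ C, c ∉ Q := by
      intro c hc hcQ
      exact hl.np c hc c (comp_self (hl.sub hc)) (hel.1 hcQ)
    have hxC0 : x ∉ C := fun hc => hxC x hc (comp_self hx)
    have hne : ∀ c ∈ C, c ≠ x := fun c hc hcx => hxC0 (by rw [← hcx]; exact hc)
    refine ⟨insert x C, Function.update G x (K ∪ Q), ?_, ?_, ?_, ?_, ?_, ?_, ?_, ?_⟩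
    · intro c hc
      rcases Finset.mem_insert.1 hc with rfl | hc
      · exact hx
      · exact hl.sub hc
    · rw [hdn, hl.dd, Finset.biUnion_insert, Function.update_self, Finset.union_assoc,
        Finset.union_comm]
      congr 1
      refine Finset.biUnion_congr rfl fun c hc => ?_
      rw [Function.update_of_ne (hne c hc)]
    · intro c hc
      rcases Finset.mem_insert.1 hc with rfl | hc
      · rw [Function.update_self]
        intro y hy
        show y ∈ Γ.nbh (L.cmp Γ (m + 1) c) (Γ.ρ (m + 1))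
        rw [← hQ]
        rcases Finset.mem_union.1 hy with h1 | h1
        · exact (Finset.mem_inter.1 (hK h1)).2
        · exact mem_nbh.2 ⟨y, h1, by rw [hG.self]; exact Nat.zero_le _⟩
      · rw [Function.update_of_ne (hne c hc)]
        exact hl.nb c hc
    · intro c hc
      rcases Finset.mem_insert.1 hc with rfl | hc
      · rw [Function.update_self]
        refine (Finset.card_union_le _ _).trans (Nat.add_le_add hKc ?_)
        rw [hQ]
        exact hsep.2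
      · rw [Function.update_of_ne (hne c hc)]
        exact hl.card c hc
    · intro c hc y hy hy2
      obtain ⟨h1, h2⟩ := Finset.mem_sdiff.1 hy2
      rcases Finset.mem_insert.1 hc with rfl | hc
      · apply h2
        rw [hQ]
        exact hy
      · exact hl.np c hc y hy h1
    · intro c hc c' hc' hcc
      rcases Finset.mem_insert.1 hc with rfl | hc1
      · rcases Finset.mem_insert.1 hc' with rfl | hc1'
        · rfl
        · exact absurd (by rw [hQ]; exact hcc) (hCx c' hc1')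
      · rcases Finset.mem_insert.1 hc' with rfl | hc1'
        · exact absurd hcc (hxC c hc1)
        · exact hl.sep c hc1 c' hc1' hcc
    · intro c hc z hz b hb hzb
      rcases Finset.mem_insert.1 hc with rfl | hc1
      · refine h.sub m rfl _ (fun hB => ?_)
        have h1 : b ∈ Γ.enl (m + 1) (L.bad (m + 1)) 1 :=
          mem_enl.2 ⟨b, hB, by rw [hG.self]; exact Nat.zero_le _⟩
        have h2 := hel.2 z (by rw [hQ]; exact hz) b h1
        have h3 := hS.rho m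
        omega
      · exact hl.few c hc1 z hz b hb hzb
    · intro y hy hy2
      by_cases h1 : y ∈ L.pend
      · have h2 : y ∈ Q := by
          by_contra h3
          exact hy2 (Finset.mem_sdiff.2 ⟨h1, h3⟩)
        exact ⟨x, Finset.mem_insert_self _ _, by rw [hQ] at h2; exact h2⟩
      · obtain ⟨c, hc, hyc⟩ := hl.all y hy h1
        exact ⟨c, Finset.mem_insert_of_mem hc, hyc⟩

/-- the waiting components are in `5 B` -/
theorem wait (se2 : Se2Stmt) (hG : GeoOk Γ d) (hS : Scl Γ d) {m : ℕ} {L : Lb X}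
    (h : LI Γ d o Kn Dn (m + 1) L)
    (hne : ∀ x ∈ L.op, ¬ L.elig Γ (m + 1) (L.cmp Γ (m + 1) x)) {x : X} (hx : x ∈ L.op)
    (hxp : x ∈ L.pend) {y : X} (hy : Γ.D x y ≤ 3 * Γ.ρ (m + 1)) :
    y ∈ Γ.enl (m + 1) (L.bad (m + 1)) 2 := by
  classical
  obtain ⟨C, G, hl⟩ := h.led m rfl
  refine se2 X Γ d hG hS m (L.bad m) (L.bad (m + 1)) L.op x hx (h.opn m rfl) (h.rep m)
    (h.sub m rfl) ?_ y hy
  by_contra hc
  push Not at hc
  refine hne x hx ⟨?_, hc⟩
  intro z hz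
  by_contra hzp
  obtain ⟨c, hcC, hzc⟩ := hl.all z (comp_sub hz) hzp
  have h1 : x ∈ L.cmp Γ (m + 1) z := comp_symm hG hx hz
  exact hl.np c hcC x (comp_trans hzc h1) hxp

/-- the next super-stage -/
theorem li_nxt (se2 : Se2Stmt) (hG : GeoOk Γ d) (hS : Scl Γ d)
    (hD : ∀ n, 1 ≤ n → 3 ^ d * Γ.J * (Kn n + 3 ^ d * Γ.J * (6 * Γ.L (n - 1) + 1) ^ d) ≤ Dn n)
    {n : ℕ} {L : Lb X} (h : LI Γ d o Kn Dn n L)
    (hne : ∀ x ∈ L.op, ¬ L.elig Γ n (L.cmp Γ n x)) : LI Γ d o Kn Dn (n + 1) (L.nxt Γ n) := by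
  classical
  obtain ⟨Y, hY⟩ : ∃ Y, Y = Γ.nbh (L.op ∩ L.pend) (3 * Γ.ρ n) := ⟨_, rfl⟩
  obtain ⟨Z, hZ⟩ : ∃ Z, Z = Γ.enl (n + 1) (L.many Γ n) 1 := ⟨_, rfl⟩
  have hrun : (L.nxt Γ n).run = (L.run \ Y) \ Z := by rw [hY, hZ]; rfl
  have hpend : (L.nxt Γ n).pend = (L.pend ∪ (L.run ∩ Y)) ∪ ((L.run \ Y) ∩ Z) := by
    rw [hY, hZ]; rfl
  have hop : (L.nxt Γ n).op = L.pend ∪ (L.run ∩ Y) := by rw [hY]; rfl
  have hdd : (L.nxt Γ n).dd = L.dd := rfl
  have hbj : ∀ j, j ≠ n + 1 → (L.nxt Γ n).bad j = L.bad j := fun j hj =>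
    Function.update_of_ne hj _ _
  have hbn : (L.nxt Γ n).bad (n + 1) = L.many Γ n := by
    have h1 : (L.nxt Γ n).bad (n + 1) = L.bad (n + 1) ∪ L.many Γ n := Function.update_self _ _ _
    rw [h1, h.bz (n + 1) (Nat.lt_succ_self n), Finset.empty_union]
  have hrep : ∀ j, ∀ B ∈ (L.nxt Γ n).bad j, Γ.bl j B = B := by
    intro j B hB
    by_cases hj : j = n + 1
    · subst hj
      rw [hbn] at hB
      exact (mem_many.1 hB).1
    · rw [hbj j hj] at hB
      exact h.rep j B hB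
  refine ⟨?_, ?_, hrep, ?_, ?_, ?_, ?_, ?_, ?_, ?_, ?_, ?_, ?_, ?_, ?_⟩
  · rw [hrun, hpend, Finset.disjoint_left]
    intro x hx hx2
    obtain ⟨h0, hxZ⟩ := Finset.mem_sdiff.1 hx
    obtain ⟨hxr, hxY⟩ := Finset.mem_sdiff.1 h0
    rcases Finset.mem_union.1 hx2 with h1 | h1
    · rcases Finset.mem_union.1 h1 with h2 | h2
      · exact Finset.disjoint_left.1 h.disj hxr h2
      · exact hxY (Finset.mem_inter.1 h2).2
    · exact hxZ (Finset.mem_inter.1 h1).2
  · intro x hx1 hx2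
    rw [hrun, Finset.mem_sdiff, Finset.mem_sdiff] at hx1
    rw [hpend, Finset.mem_union, Finset.mem_union, Finset.mem_inter, Finset.mem_inter,
      Finset.mem_sdiff] at hx2
    rw [hdd]
    have h1 : x ∉ L.run := by
      intro h1
      by_cases h2 : x ∈ Y
      · exact hx2 (Or.inl (Or.inr ⟨h1, h2⟩))
      · by_cases h3 : x ∈ Z
        · exact hx2 (Or.inr ⟨⟨h1, h2⟩, h3⟩)
        · exact hx1 ⟨⟨h1, h2⟩, h3⟩
    obtain ⟨j, hj, hxj⟩ := h.dead x h1 (fun h2 => hx2 (Or.inl (Or.inl h2)))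
    exact ⟨j, by omega, hxj⟩
  · rw [hrun, hbn, ← hZ]
    exact Finset.sdiff_disjoint
  · intro h0
    exact absurd h0 (Nat.succ_ne_zero n)
  · intro x hx hx2
    rw [hop] at hx2
    rw [hpend] at hx
    rcases Finset.mem_union.1 hx with h1 | h1
    · exact absurd h1 hx2
    · rw [hbn, ← hZ]
      exact (Finset.mem_inter.1 h1).2
  · intro ho
    by_cases h1 : o ∈ L.run
    · by_cases h2 : o ∈ Y
      · rw [hY] at h2
        obtain ⟨z, hz, hoz⟩ := mem_nbh.1 h2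
        have hzo : z ∈ L.op := (Finset.mem_inter.1 hz).1
        rcases n with _ | m
        · rw [h.pen rfl] at hzo
          exact absurd hzo (Finset.notMem_empty _)
        · obtain ⟨B, hB, hB2⟩ := near_of_op hG (h.opn m rfl) (h.rep m) hzo hoz
          exact ⟨m, by omega, B, by rw [hbj m (by omega)]; exact hB, hB2⟩
      · have h3 : o ∈ Z := by
          by_contra h3
          exact ho (by rw [hrun, Finset.mem_sdiff, Finset.mem_sdiff]; exact ⟨⟨h1, h2⟩, h3⟩)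
        rw [hZ] at h3
        obtain ⟨B, hB, hB2⟩ := near_of_enl (fun B hB => (mem_many.1 hB).1) h3
        exact ⟨n + 1, le_rfl, B, by rw [hbn]; exact hB, hB2⟩
    · obtain ⟨j, hj, B, hB, hB2⟩ := h.orig h1
      exact ⟨j, by omega, B, by rw [hbj j (by omega)]; exact hB, hB2⟩
  · intro m hm x hx
    obtain rfl : n = m := by omega
    rw [hbj n (by omega)]
    rw [hop] at hx
    rcases Finset.mem_union.1 hx with h1 | h1
    · by_cases h2 : x ∈ L.op
      · rcases n with _ | m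
        · rw [h.pen rfl] at h2
          exact absurd h2 (Finset.notMem_empty _)
        · exact wait se2 hG hS h hne h2 h1 (by rw [hG.self]; exact Nat.zero_le _)
      · exact enl_mono (Finset.Subset.refl _) (by omega) (h.npe x h1 h2)
    · obtain ⟨h2, h3⟩ := Finset.mem_inter.1 h1
      rw [hY] at h3
      obtain ⟨z, hz, hxz⟩ := mem_nbh.1 h3
      obtain ⟨hzo, hzp⟩ := Finset.mem_inter.1 hz
      rcases n with _ | m
      · rw [h.pen rfl] at hzo
        exact absurd hzo (Finset.notMem_empty _)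
      · exact wait se2 hG hS h hne hzo hzp (by rw [hG.comm]; exact hxz)
  · intro x hx hx2
    rw [hop] at hx
    rw [hrun, Finset.mem_sdiff, Finset.mem_sdiff] at hx2
    rcases Finset.mem_union.1 hx with h1 | h1
    · exact Finset.disjoint_left.1 h.disj hx2.1.1 h1
    · exact hx2.1.2 (Finset.mem_inter.1 h1).2
  · intro j hj
    rw [hbj j (by omega)]
    exact h.bz j (by omega)
  · intro j hj
    exact h.dz j (by omega)
  · intro h0
    exact absurd h0 (Nat.succ_ne_zero n)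
  · intro m hm B hB
    obtain rfl : n = m := by omega
    rw [hbj n (by omega)]
    rw [hbn] at hB
    by_cases hBr : Γ.bl (n + 1) B = B
    · by_contra hc
      push Not at hc
      exact hB (mem_many.2 ⟨hBr, hc⟩)
    · rw [bl_sub hG hBr]
      exact Nat.zero_le _
  · intro j hj B
    rw [hdd]
    rcases Nat.lt_or_ge j n with h1 | h1
    · exact h.den j h1 B
    · obtain rfl : j = n := by omega
      rcases j with _ | m
      · rw [h.d0 rfl, Finset.empty_inter, Finset.card_empty]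
        exact Nat.zero_le _
      · obtain ⟨C, G, hl⟩ := h.led m rfl
        exact (led_dens hG hS hl (h.opn m rfl) B).trans (hD (m + 1) (Nat.succ_pos m))
  · intro m hm
    obtain rfl : n = m := by omega
    refine ⟨∅, fun _ => ∅, Finset.empty_subset _, ?_, ?_, ?_, ?_, ?_, ?_, ?_⟩
    · rw [hdd, h.dz (n + 1) (Nat.lt_succ_self n)]
      rfl
    · intro c hc
      exact absurd hc (Finset.notMem_empty _)
    · intro c hc
      exact absurd hc (Finset.notMem_empty _)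
    · intro c hc
      exact absurd hc (Finset.notMem_empty _)
    · intro c hc
      exact absurd hc (Finset.notMem_empty _)
    · intro c hc
      exact absurd hc (Finset.notMem_empty _)
    · intro y hy hy2
      rw [hop] at hy
      rw [hpend] at hy2
      exact absurd (Finset.mem_union_left _ hy) hy2

/-- the start -/
theorem li_ini : LI Γ d o Kn Dn 0 (Lb.ini X) := by
  have hrun : (Lb.ini X).run = Finset.univ := rfl
  refine ⟨?_, ?_, ?_, ?_, ?_, ?_, ?_, ?_, ?_, ?_, ?_, ?_, ?_, ?_, ?_⟩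
  · exact Finset.disjoint_empty_right _
  · intro x hx
    exact absurd (Finset.mem_univ x) hx
  · intro j B hB
    exact absurd hB (Finset.notMem_empty _)
  · rw [Finset.disjoint_left]
    intro x _ hx
    obtain ⟨y, hy, -⟩ := mem_enl.1 hx
    exact absurd hy (Finset.notMem_empty _)
  · intro _
    rfl
  · intro x hx
    exact absurd hx (Finset.notMem_empty _)
  · intro ho
    exact absurd (Finset.mem_univ o) ho
  · intro m hm
    exact absurd hm.symm (Nat.succ_ne_zero m)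
  · intro x hx
    exact absurd hx (Finset.notMem_empty _)
  · intro j _
    rfl
  · intro j _
    rfl
  · intro _
    rfl
  · intro m hm
    exact absurd hm.symm (Nat.succ_ne_zero m)
  · intro j hj
    exact absurd hj (Nat.not_lt_zero j)
  · intro m hm
    exact absurd hm.symm (Nat.succ_ne_zero m)

/-- LAB -/
theorem lab (sep : SepStmt) (se2 : Se2Stmt) : LabStmt := by
  intro X _ _ Γ d o Kn Dn hG hS hD
  exact ⟨LI Γ d o Kn Dn, li_ini, fun n L h => li_fac sep hG hS hD h,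
    fun n L 𝓑 h hr => li_add 𝓑 h hr,
    fun n L x K h hx hel hK hKc => li_die sep hG hS x K h hx hel hK hKc,
    fun n L h hne => li_nxt se2 hG hS hD h hne⟩

end Pool.Agent.ANP.H49
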