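import Pool.Agent.Helper61_ANP.Tor

/-!
# The neighbours of a block of the torus

`MeetB`: at most `3 ^ d` blocks of level `n` are within distance `L n` of a given block of level `n`.
-/

set_option autoImplicit false

open Finset

namespace Pool.Agent.ANP.H49

/-- at most `3 ^ d` blocks of level `n` are within distance `L n` of a block -/
def MeetB {X : Type} [Fintype X] [DecidableEq X] (Γ : Geo X) (d : ℕ) : Prop :=
  ∀ n x, (({y | ∃ z, Γ.bl n z = Γ.bl n x ∧ Γ.D z y ≤ Γ.L n} : Finset X).image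
    (Γ.bl n)).card ≤ 3 ^ d

open Pool.Agent.ANP.H61

variable {μ : ℕ}

theorem meetb1 (j : ℕ) (a : ZMod (2 ^ μ)) :
    (({b | ∃ z, rnd j z = rnd j a ∧ cd z b ≤ 2 ^ j} : Finset (ZMod (2 ^ μ))).image
      (rnd j)).card ≤ 3 := by
  rcases Nat.lt_or_ge μ j with h | h
  · have h1 : (({b | ∃ z, rnd j z = rnd j a ∧ cd z b ≤ 2 ^ j} : Finset (ZMod (2 ^ μ))).image
        (rnd j)) ⊆ {0} := by
      intro c hc
      obtain ⟨b, _, rfl⟩ := mem_image.1 hc
      rw [mem_singleton]
      unfold rnd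
      rw [Nat.div_eq_of_lt, zero_mul, Nat.cast_zero]
      exact lt_of_lt_of_le (ZMod.val_lt b) (Nat.pow_le_pow_right (by norm_num) h.le)
    have := card_le_card h1
    rw [card_singleton] at this
    omega
  · obtain ⟨q, hq⟩ : ∃ q : ℤ, q = (a.val : ℤ) / 2 ^ j := ⟨_, rfl⟩
    have h1 : (({b | ∃ z, rnd j z = rnd j a ∧ cd z b ≤ 2 ^ j} : Finset (ZMod (2 ^ μ))).image
        (rnd j)) ⊆
        {(((q - 1) * 2 ^ j : ℤ) : ZMod (2 ^ μ)), ((q * 2 ^ j : ℤ) : ZMod (2 ^ μ)),
          (((q + 1) * 2 ^ j : ℤ) : ZMod (2 ^ μ))} := by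
      intro c hc
      obtain ⟨b, hb, rfl⟩ := mem_image.1 hc
      rw [mem_filter] at hb
      obtain ⟨-, z, hz, hzb⟩ := hb
      obtain ⟨k, hk1, hk2⟩ := exists_int z b
      have hq' : q = (z.val : ℤ) / 2 ^ j := by
        rw [hq]
        have h5 := rnd_eq j z a hz
        have h6 := congrArg (fun t : ℕ => (t : ℤ)) h5
        push_cast at h6
        exact h6.symm
      have hb1 : b = (((z.val : ℤ) - k : ℤ) : ZMod (2 ^ μ)) := by
        push_cast
        rw [← hk1]
        simp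
      rw [hb1, rnd_int j h]
      have hk3 : k.natAbs ≤ 2 ^ j := by rw [hk2]; exact hzb
      have hk4 : |k| ≤ 2 ^ j := by
        rw [Int.abs_eq_natAbs]
        exact_mod_cast hk3
      rw [abs_le] at hk4
      have hp : (0 : ℤ) < 2 ^ j := by positivity
      have e1 : q * 2 ^ j ≤ (z.val : ℤ) := by
        rw [hq']; exact Int.ediv_mul_le _ hp.ne'
      have e2 : (z.val : ℤ) < (q + 1) * 2 ^ j := by
        rw [hq']; exact Int.lt_ediv_add_one_mul_self _ hp
      have e3 : q - 1 ≤ ((z.val : ℤ) - k) / 2 ^ j := by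
        rw [Int.le_ediv_iff_mul_le hp]
        linarith
      have e4 : ((z.val : ℤ) - k) / 2 ^ j < q + 2 := by
        rw [Int.ediv_lt_iff_lt_mul hp]
        linarith
      have e5 : ((z.val : ℤ) - k) / 2 ^ j = q - 1 ∨ ((z.val : ℤ) - k) / 2 ^ j = q ∨
          ((z.val : ℤ) - k) / 2 ^ j = q + 1 := by omega
      rw [mem_insert, mem_insert, mem_singleton]
      rcases e5 with e | e | e
      · left; rw [e]
      · right; left; rw [e]
      · right; right; rw [e]
    exact (card_le_card h1).trans Finset.card_le_three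

/-- the torus satisfies `MeetB` -/
theorem meetb (d μ : ℕ) (l ρ : ℕ → ℕ) (J N : ℕ) : MeetB (geoT d μ l ρ J N) d := by
  intro n x
  refine pi_card _ (fun i => ({b | ∃ z, rnd (l n) z = rnd (l n) (x i) ∧ cd z b ≤ 2 ^ l n} :
    Finset (ZMod (2 ^ μ))).image (rnd (l n))) _ ?_ ?_
  · intro y hy i
    obtain ⟨w, hw, rfl⟩ := mem_image.1 hy
    rw [mem_filter] at hw
    obtain ⟨-, z, hz, hzw⟩ := hw
    rw [mem_image]
    refine ⟨w i, ?_, rfl⟩
    rw [mem_filter]
    exact ⟨mem_univ _, z i, congrFun hz i, (sd_le z w _).1 hzw i⟩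
  · intro i
    exact meetb1 _ _

end Pool.Agent.ANP.H49
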